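import Pool.Agent.V11197.PP.Table

set_option autoImplicit false

/-! Signs of a sequence satisfying the recursion of the power product expansion. -/

namespace Pool.Agent.V11197.PP

/-- the inhomogeneous term -/
def SS (M : ℕ) : ℤ :=
  ∑ k ∈ (2 * M).divisors, if k % 2 = 1 then 2 * (k : ℤ) else (k : ℤ)

/-- the recursion for `N i = n_{2i}` -/
def Rec (N : ℕ → ℤ) : Prop :=
  ∀ M : ℕ, 0 < M → 2 * (M : ℤ) * N M = SS M + ∑ i ∈ M.properDivisors, 2 * (i : ℤ) * (-N i) ^ (M / i)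

theorem sum_divisors_eq (f : ℕ → ℤ) (m : ℕ) (hm : 0 < m) :
    ∑ k ∈ m.divisors, f k = ∑ k ∈ Finset.range (m + 1), if m % k = 0 then f k else 0 := by
  rw [← Finset.sum_filter]
  apply Finset.sum_congr _ (fun _ _ => rfl)
  ext k
  simp only [Nat.mem_divisors, Finset.mem_filter, Finset.mem_range, Nat.dvd_iff_mod_eq_zero]
  constructor
  · rintro ⟨h, _⟩
    exact ⟨Nat.lt_succ_of_le (Nat.le_of_dvd hm (Nat.dvd_of_mod_eq_zero h)), h⟩
  · rintro ⟨_, h⟩
    exact ⟨h, hm.ne'⟩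

theorem sum_properDivisors_eq (f : ℕ → ℤ) (m : ℕ) :
    ∑ k ∈ m.properDivisors, f k = ∑ k ∈ Finset.range m, if m % k = 0 then f k else 0 := by
  rw [← Finset.sum_filter]
  apply Finset.sum_congr _ (fun _ _ => rfl)
  ext k
  simp only [Nat.mem_properDivisors, Finset.mem_filter, Finset.mem_range, Nat.dvd_iff_mod_eq_zero]
  tauto

theorem sig_eq (M : ℕ) (hM : 0 < M) : sig M = SS M := by
  rw [sig, SS, acc_eq, sum_divisors_eq _ _ (by omega)]

theorem tab_rec (M : ℕ) (hM : 0 < M) (hM' : M ≤ 400) :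
    2 * (M : ℤ) * tab M = SS M + ∑ i ∈ M.properDivisors, 2 * (i : ℤ) * (-tab i) ^ (M / i) := by
  have h := check
  rw [List.all_eq_true] at h
  have h1 := h (M - 1) (by rw [List.mem_range]; omega)
  rw [decide_eq_true_eq, show M - 1 + 1 = M by omega] at h1
  rw [h1, sig_eq M hM, rst, acc_eq, sum_properDivisors_eq]
  congr 1
  refine Finset.sum_congr rfl fun i _ => ?_
  rw [spow_eq]

theorem N_eq_tab (N : ℕ → ℤ) (hN : Rec N) : ∀ M : ℕ, 0 < M → M ≤ 400 → N M = tab M := by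
  intro M
  induction M using Nat.strong_induction_on with
  | _ M ih =>
    intro hM hM'
    have h1 := hN M hM
    have h2 := tab_rec M hM hM'
    have h3 : ∑ i ∈ M.properDivisors, 2 * (i : ℤ) * (-N i) ^ (M / i) =
        ∑ i ∈ M.properDivisors, 2 * (i : ℤ) * (-tab i) ^ (M / i) := by
      refine Finset.sum_congr rfl fun i hi => ?_
      rw [Nat.mem_properDivisors] at hi
      rw [ih i hi.2 (Nat.pos_of_dvd_of_pos hi.1 hM) (by omega)]
    rw [h3, ← h2] at h1
    have h4 : (2 * (M : ℤ)) ≠ 0 := by positivity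
    exact mul_left_cancel₀ h4 h1

/-- the bounds used in the induction -/
theorem small_bound (N : ℕ → ℤ) (hN : Rec N) (i : ℕ) (h3 : 3 ≤ i) (h64 : i ≤ 64) :
    |(N i : ℝ)| ≤ (39 / 20) ^ i := by
  rw [N_eq_tab N hN i (by omega) (by omega)]
  have h := tab_small
  rw [List.all_eq_true] at h
  have h1 := h (i - 3) (by rw [List.mem_range]; omega)
  rw [decide_eq_true_eq, show i - 3 + 3 = i by omega] at h1
  have h2 : (((tab i).natAbs : ℕ) : ℝ) * 20 ^ i ≤ 39 ^ i := by exact_mod_cast h1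
  rw [Nat.cast_natAbs, Int.cast_abs] at h2
  rw [div_pow, le_div_iff₀ (by positivity)]
  exact h2

theorem table_large (N : ℕ → ℤ) (hN : Rec N) (i : ℕ) (h65 : 65 ≤ i) (h400 : i ≤ 400) :
    (i : ℝ) * |(N i : ℝ)| ≤ 7 * 2 ^ i := by
  rw [N_eq_tab N hN i (by omega) (by omega)]
  have h := tab_large
  rw [List.all_eq_true] at h
  have h1 := h (i - 65) (by rw [List.mem_range]; omega)
  rw [decide_eq_true_eq, show i - 65 + 65 = i by omega] at h1
  have h2 : (i : ℝ) * (((tab i).natAbs : ℕ) : ℝ) ≤ 7 * 2 ^ i := by exact_mod_cast h1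
  rw [Nat.cast_natAbs, Int.cast_abs] at h2
  exact h2

theorem table_sign (N : ℕ → ℤ) (hN : Rec N) (M : ℕ) (h4 : 4 ≤ M) (h400 : M ≤ 400) :
    (M % 4 = 0 → 0 < N M) ∧ (M % 4 ≠ 0 → N M < 0) := by
  rw [N_eq_tab N hN M (by omega) (by omega)]
  have h := tab_sign
  rw [List.all_eq_true] at h
  have h1 := h (M - 4) (by rw [List.mem_range]; omega)
  rw [show M - 4 + 4 = M by omega] at h1
  constructor
  · intro h2
    rw [if_pos h2, decide_eq_true_eq] at h1
    exact h1
  · intro h2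
    rw [if_neg h2, decide_eq_true_eq] at h1
    exact h1

/-- the geometric bound -/
theorem geom_le (M : ℕ) (hM : 1 ≤ M) :
    ∑ i ∈ M.properDivisors, (1 / 4 : ℝ) ^ (M / i) ≤ 1 / 12 := by
  have h1 : ∑ i ∈ M.divisors, (1 / 4 : ℝ) ^ (M / i) = ∑ i ∈ M.divisors, (1 / 4 : ℝ) ^ i :=
    Nat.sum_div_divisors M (fun d => (1 / 4 : ℝ) ^ d)
  have h2 : ∑ i ∈ M.divisors, (1 / 4 : ℝ) ^ (M / i) =
      ∑ i ∈ M.properDivisors, (1 / 4 : ℝ) ^ (M / i) + 1 / 4 := by
    rw [← Nat.insert_self_properDivisors (by omega), Finset.sum_insert Nat.self_notMem_properDivisors,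
      Nat.div_self (by omega), pow_one, add_comm]
  have h3 : ∑ i ∈ M.divisors, (1 / 4 : ℝ) ^ i ≤ 1 / 3 := by
    have h4 : M.divisors ⊆ (Finset.range (M + 1)).erase 0 := by
      intro i hi
      rw [Finset.mem_erase, Finset.mem_range]
      have := Nat.divisor_le hi
      have := Nat.pos_of_mem_divisors hi
      omega
    refine (Finset.sum_le_sum_of_subset_of_nonneg h4 (fun _ _ _ => by positivity)).trans ?_
    have h5 : ∑ i ∈ (Finset.range (M + 1)).erase 0, (1 / 4 : ℝ) ^ i =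
        ∑ i ∈ Finset.range (M + 1), (1 / 4 : ℝ) ^ i - 1 := by
      rw [Finset.sum_erase_eq_sub (by simp)]
      simp
    rw [h5, geom_sum_eq (by norm_num)]
    have : (0 : ℝ) < (1 / 4) ^ (M + 1) := by positivity
    have h6 : ((1 / 4 : ℝ) ^ (M + 1) - 1) / (1 / 4 - 1) = 4 / 3 - 4 / 3 * (1 / 4) ^ (M + 1) := by
      ring
    rw [h6]
    linarith
  linarith

theorem two_pow_ge (M : ℕ) (hM : 400 ≤ M) : 64 * (M : ℝ) ^ 2 ≤ 2 ^ M := by
  induction M, hM using Nat.le_induction with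
  | base =>
    have h : 64 * 400 ^ 2 ≤ 2 ^ 400 := by decide +kernel
    exact_mod_cast h
  | succ n hn ih =>
    rw [pow_succ 2 n]
    push_cast
    have : (400 : ℝ) ≤ n := by exact_mod_cast hn
    nlinarith

theorem pow_small (M : ℕ) (hM : 400 ≤ M) : 16640 * (39 / 20 : ℝ) ^ M ≤ 2 ^ M := by
  induction M, hM using Nat.le_induction with
  | base =>
    have h : 16640 * 39 ^ 400 ≤ 40 ^ 400 := by decide +kernel
    have h1 : (16640 : ℝ) * 39 ^ 400 ≤ 40 ^ 400 := by exact_mod_cast h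
    rw [div_pow, ← mul_div_assoc, div_le_iff₀ (by positivity), ← mul_pow]
    rw [show (2 : ℝ) * 20 = 40 by norm_num]
    exact h1
  | succ n hn ih =>
    rw [pow_succ, pow_succ]
    have : (0 : ℝ) < (39 / 20) ^ n := by positivity
    nlinarith

theorem SS_bound (M : ℕ) (hM : 400 ≤ M) : 0 ≤ (SS M : ℝ) ∧ (SS M : ℝ) ≤ 1 / 8 * 2 ^ M + 2 ^ M / 16 := by
  have h0 : 0 ≤ SS M := Finset.sum_nonneg fun k _ => by split_ifs <;> positivity
  refine ⟨by exact_mod_cast h0, ?_⟩
  have h1 : SS M ≤ ∑ k ∈ (2 * M).divisors, (4 * (M : ℤ)) := by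
    refine Finset.sum_le_sum fun k hk => ?_
    have := Nat.divisor_le hk
    split_ifs <;> omega
  have h2 : ((2 * M).divisors.card : ℤ) ≤ 2 * M := by exact_mod_cast Nat.card_divisors_le_self (2 * M)
  rw [Finset.sum_const, nsmul_eq_mul] at h1
  have h3 : SS M ≤ 8 * (M : ℤ) ^ 2 := by
    have : (0 : ℤ) ≤ M := by positivity
    nlinarith
  have h4 : (SS M : ℝ) ≤ 8 * (M : ℝ) ^ 2 := by exact_mod_cast h3
  have h5 := two_pow_ge M hM
  have : (0 : ℝ) < 2 ^ M := by positivity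
  linarith

/-- the bound of one term -/
theorem term_bound (N : ℕ → ℤ) (hN : Rec N) (M i : ℕ) (hM : 400 ≤ M) (hi : i ∈ M.properDivisors)
    (h3 : 3 ≤ i) (hb : 65 ≤ i → (i : ℝ) * |(N i : ℝ)| ≤ 7 * 2 ^ i) :
    |2 * (i : ℝ) * (-(N i : ℝ)) ^ (M / i)| ≤
      (if i < 65 then 2 * (i : ℝ) * (39 / 20) ^ M else 0) +
        3136 / M * (1 / 4) ^ (M / i) * 2 ^ M := by
  rw [Nat.mem_properDivisors] at hi
  obtain ⟨⟨d, hd⟩, hlt⟩ := hi
  have hi0 : 0 < i := by omega
  have hdiv : M / i = d := by rw [hd]; exact Nat.mul_div_cancel_left d hi0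
  have hd2 : 2 ≤ d := by
    rcases d with _ | _ | d
    · omega
    · omega
    · omega
  rw [hdiv, abs_mul, abs_pow, abs_neg, abs_of_nonneg (by positivity : (0 : ℝ) ≤ 2 * i)]
  have hMpos : (0 : ℝ) < M := by exact_mod_cast (by omega : 0 < M)
  have hipos : (0 : ℝ) < i := by exact_mod_cast hi0
  by_cases h65 : i < 65
  · rw [if_pos h65]
    have h1 := small_bound N hN i h3 (by omega)
    have h2 : |(N i : ℝ)| ^ d ≤ (39 / 20) ^ M := by
      rw [hd, pow_mul]
      exact pow_le_pow_left₀ (abs_nonneg _) h1 d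
    have h4 : 2 * (i : ℝ) * |(N i : ℝ)| ^ d ≤ 2 * (i : ℝ) * (39 / 20) ^ M :=
      mul_le_mul_of_nonneg_left h2 (by positivity)
    have h5 : (0 : ℝ) ≤ 3136 / M * (1 / 4) ^ d * 2 ^ M := by positivity
    linarith
  · rw [if_neg h65, zero_add]
    have h1 := hb (by omega)
    have h2 : |(N i : ℝ)| ≤ 7 / i * 2 ^ i := by
      rw [div_mul_eq_mul_div, le_div_iff₀ hipos]
      linarith
    have h3 : |(N i : ℝ)| ^ d ≤ (7 / i) ^ d * 2 ^ M := by
      rw [hd, pow_mul, ← mul_pow]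
      exact pow_le_pow_left₀ (abs_nonneg _) h2 d
    obtain ⟨e, rfl⟩ : ∃ e, d = e + 2 := ⟨d - 2, by omega⟩
    have h65' : (65 : ℝ) ≤ i := by exact_mod_cast (by omega : 65 ≤ i)
    have h6 : (7 / (i : ℝ)) ^ e ≤ (7 / 65) ^ e := by
      apply pow_le_pow_left₀ (by positivity)
      exact div_le_div_of_nonneg_left (by norm_num) (by norm_num) h65'
    have h7 : ((e : ℝ) + 2) ≤ 2 * 2 ^ e := by
      have h8 : e + 1 ≤ 2 ^ e := Nat.lt_two_pow_self
      have h9 : ((e : ℝ) + 1) ≤ 2 ^ e := by exact_mod_cast h8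
      linarith [show (0 : ℝ) ≤ e by positivity]
    have hMi : (M : ℝ) = i * (e + 2) := by rw [hd]; push_cast; ring
    have h8 : 2 * (i : ℝ) * (7 / i) ^ (e + 2) ≤ 3136 / M * (1 / 4) ^ (e + 2) := by
      have h9 : 2 * (i : ℝ) * (7 / i) ^ (e + 2) = 98 * (e + 2) / M * (7 / i) ^ e := by
        rw [hMi, pow_add]
        field_simp
        ring
      rw [h9]
      have h10 : 98 * ((e : ℝ) + 2) / M * (7 / i) ^ e ≤ 98 * (2 * 2 ^ e) / M * (7 / 65) ^ e := by
        gcongr
      refine h10.trans ?_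
      have h11 : 98 * (2 * 2 ^ e) / M * (7 / 65 : ℝ) ^ e = 196 / M * (14 / 65) ^ e := by
        rw [show (14 / 65 : ℝ) = 2 * (7 / 65) by norm_num, mul_pow]
        ring
      rw [h11]
      have h12 : (14 / 65 : ℝ) ^ e ≤ (1 / 4) ^ e := pow_le_pow_left₀ (by norm_num) (by norm_num) e
      have h13 : 3136 / (M : ℝ) * (1 / 4) ^ (e + 2) = 196 / M * (1 / 4) ^ e := by
        rw [pow_add]; ring
      rw [h13]
      gcongr
    calc 2 * (i : ℝ) * |(N i : ℝ)| ^ (e + 2) ≤ 2 * (i : ℝ) * ((7 / i) ^ (e + 2) * 2 ^ M) := by gcongr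
      _ = (2 * (i : ℝ) * (7 / i) ^ (e + 2)) * 2 ^ M := by ring
      _ ≤ _ := by gcongr

/-- the sum of the terms with `i ≥ 3` -/
theorem tail_bound (N : ℕ → ℤ) (hN : Rec N) (M : ℕ) (hM : 400 < M)
    (hb : ∀ i, 65 ≤ i → i < M → (i : ℝ) * |(N i : ℝ)| ≤ 7 * 2 ^ i) :
    |∑ i ∈ M.properDivisors.filter (fun i => 3 ≤ i), 2 * (i : ℝ) * (-(N i : ℝ)) ^ (M / i)| ≤
      2 ^ M := by
  refine (Finset.abs_sum_le_sum_abs _ _).trans ?_
  have h1 : ∀ i ∈ M.properDivisors.filter (fun i => 3 ≤ i),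
      |2 * (i : ℝ) * (-(N i : ℝ)) ^ (M / i)| ≤
      (if i < 65 then 2 * (i : ℝ) * (39 / 20) ^ M else 0) +
        3136 / M * (1 / 4) ^ (M / i) * 2 ^ M := by
    intro i hi
    rw [Finset.mem_filter] at hi
    exact term_bound N hN M i hM.le hi.1 hi.2
      (fun h => hb i h (Nat.mem_properDivisors.1 hi.1).2)
  refine (Finset.sum_le_sum h1).trans ?_
  rw [Finset.sum_add_distrib]
  have hMpos : (400 : ℝ) < M := by exact_mod_cast hM
  have h2 : ∑ i ∈ M.properDivisors.filter (fun i => 3 ≤ i),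
      (if i < 65 then 2 * (i : ℝ) * (39 / 20) ^ M else 0) ≤ 4160 * (39 / 20) ^ M := by
    rw [← Finset.sum_filter]
    have h3 : ((M.properDivisors.filter (fun i => 3 ≤ i)).filter (fun i => i < 65)) ⊆
        Finset.range 65 := by
      intro i hi
      rw [Finset.mem_filter] at hi
      exact Finset.mem_range.2 hi.2
    refine (Finset.sum_le_sum_of_subset_of_nonneg h3 (fun _ _ _ => by positivity)).trans ?_
    rw [← Finset.sum_mul, ← Finset.mul_sum]
    have h4 : ∑ i ∈ Finset.range 65, (i : ℝ) = 2080 := by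
      have h5 : (∑ i ∈ Finset.range 65, i) = 2080 := by decide +kernel
      rw [← Nat.cast_sum, h5]
      norm_num
    rw [h4]
    norm_num
  have h3 : ∑ i ∈ M.properDivisors.filter (fun i => 3 ≤ i),
      3136 / (M : ℝ) * (1 / 4) ^ (M / i) * 2 ^ M ≤ 3136 / M * (1 / 12) * 2 ^ M := by
    rw [← Finset.sum_mul, ← Finset.mul_sum]
    have h4 : ∑ i ∈ M.properDivisors.filter (fun i => 3 ≤ i), (1 / 4 : ℝ) ^ (M / i) ≤ 1 / 12 :=
      (Finset.sum_le_sum_of_subset_of_nonneg (Finset.filter_subset _ _)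
        (fun _ _ _ => by positivity)).trans (geom_le M (by omega))
    gcongr
  have h4 := pow_small M hM.le
  have h5 : (3136 : ℝ) / M ≤ 3136 / 400 := by
    apply div_le_div_of_nonneg_left (by norm_num) (by norm_num) hMpos.le
  have h6 : (0 : ℝ) < 2 ^ M := by positivity
  have h7 : 3136 / (M : ℝ) * (1 / 12) * 2 ^ M ≤ 3136 / 400 * (1 / 12) * 2 ^ M := by gcongr
  nlinarith

theorem main_split (N : ℕ → ℤ) (hN : Rec N) (M : ℕ) (hM : 400 < M) :
    2 * (M : ℝ) * (N M : ℝ) = SS M + (if M % 4 = 0 then (6 : ℝ) else -2) * 2 ^ M +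
      ∑ i ∈ M.properDivisors.filter (fun i => 3 ≤ i), 2 * (i : ℝ) * (-(N i : ℝ)) ^ (M / i) := by
  have h0 := hN M (by omega)
  have h1 : 2 * (M : ℝ) * (N M : ℝ) = SS M +
      ∑ i ∈ M.properDivisors, 2 * (i : ℝ) * (-(N i : ℝ)) ^ (M / i) := by
    exact_mod_cast congrArg (fun z : ℤ => (z : ℝ)) h0
  rw [h1, ← Finset.sum_filter_add_sum_filter_not M.properDivisors (fun i => 3 ≤ i)]
  have hN1 : N 1 = 2 := by rw [N_eq_tab N hN 1 (by omega) (by omega)]; decide +kernel
  have hN2 : N 2 = 4 := by rw [N_eq_tab N hN 2 (by omega) (by omega)]; decide +kernel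
  have h2 : ∑ i ∈ M.properDivisors.filter (fun i => ¬ 3 ≤ i),
      2 * (i : ℝ) * (-(N i : ℝ)) ^ (M / i) = (if M % 4 = 0 then (6 : ℝ) else -2) * 2 ^ M := by
    by_cases h2M : 2 ∣ M
    · have hs : M.properDivisors.filter (fun i => ¬ 3 ≤ i) = {1, 2} := by
        ext i
        simp only [Finset.mem_filter, Nat.mem_properDivisors, Finset.mem_insert,
          Finset.mem_singleton]
        constructor
        · rintro ⟨⟨hd, _⟩, h3⟩
          have : i ≠ 0 := by rintro rfl; rw [Nat.zero_dvd] at hd; omega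
          omega
        · rintro (rfl | rfl)
          · exact ⟨⟨one_dvd _, by omega⟩, by omega⟩
          · exact ⟨⟨h2M, by omega⟩, by omega⟩
      rw [hs, Finset.sum_pair (by norm_num), hN1, hN2]
      obtain ⟨c, rfl⟩ := h2M
      have e1 : 2 * c / 1 = 2 * c := Nat.div_one _
      have e2 : 2 * c / 2 = c := by omega
      rw [e1, e2]
      push_cast
      have e3 : (-(2 : ℝ)) ^ (2 * c) = 2 ^ (2 * c) := Even.neg_pow (by simp) _
      have e4 : (4 : ℝ) ^ c = 2 ^ (2 * c) := by rw [pow_mul]; norm_num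
      rw [e3]
      by_cases hc : c % 2 = 0
      · rw [if_pos (by omega), Even.neg_pow (Nat.even_iff.2 hc), e4]
        ring
      · rw [if_neg (by omega), Odd.neg_pow (Nat.odd_iff.2 (by omega)), e4]
        ring
    · have hs : M.properDivisors.filter (fun i => ¬ 3 ≤ i) = {1} := by
        ext i
        simp only [Finset.mem_filter, Nat.mem_properDivisors, Finset.mem_singleton]
        constructor
        · rintro ⟨⟨hd, _⟩, h3⟩
          have h5 : i ≠ 0 := by rintro rfl; rw [Nat.zero_dvd] at hd; omega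
          have h6 : i ≠ 2 := by rintro rfl; exact h2M hd
          omega
        · rintro rfl
          exact ⟨⟨one_dvd _, by omega⟩, by omega⟩
      rw [hs, Finset.sum_singleton, hN1, Nat.div_one, if_neg (by omega)]
      push_cast
      rw [Odd.neg_pow (Nat.odd_iff.2 (by omega))]
      ring
  rw [h2]
  ring

theorem large_bound (N : ℕ → ℤ) (hN : Rec N) :
    ∀ M : ℕ, 65 ≤ M → (M : ℝ) * |(N M : ℝ)| ≤ 7 * 2 ^ M := by
  intro M
  induction M using Nat.strong_induction_on with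
  | _ M ih =>
    intro h65
    rcases le_or_gt M 400 with h | h
    · exact table_large N hN M h65 h
    · have h1 := tail_bound N hN M h (fun i hi hi' => ih i hi' hi)
      have h2 := main_split N hN M h
      have h3 := SS_bound M h.le
      have h6 : (0 : ℝ) < 2 ^ M := by positivity
      have h7 : |2 * (M : ℝ) * (N M : ℝ)| ≤ 14 * 2 ^ M := by
        rw [h2]
        rw [abs_le] at h1 ⊢
        constructor
        · split_ifs <;> linarith [h1.1, h1.2, h3.1, h3.2]
        · split_ifs <;> linarith [h1.1, h1.2, h3.1, h3.2]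
      rw [abs_mul, abs_of_nonneg (by positivity : (0 : ℝ) ≤ 2 * M)] at h7
      linarith

theorem signs (N : ℕ → ℤ) (hN : Rec N) (M : ℕ) (h4 : 4 ≤ M) :
    (M % 4 = 0 → 0 < N M) ∧ (M % 4 ≠ 0 → N M < 0) := by
  rcases le_or_gt M 400 with h | h
  · exact table_sign N hN M h4 h
  · have h1 := tail_bound N hN M h (fun i hi _ => large_bound N hN i hi)
    have h2 := main_split N hN M h
    have h3 := SS_bound M h.le
    have h6 : (0 : ℝ) < 2 ^ M := by positivity
    have hMpos : (0 : ℝ) < 2 * M := by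
      have : 0 < M := by omega
      positivity
    rw [abs_le] at h1
    constructor
    · intro h5
      rw [if_pos h5] at h2
      have h8 : 0 < 2 * (M : ℝ) * (N M : ℝ) := by linarith [h1.1, h3.1]
      have h9 : (0 : ℝ) < N M := (mul_pos_iff_of_pos_left hMpos).1 h8
      exact_mod_cast h9
    · intro h5
      rw [if_neg h5] at h2
      have h8 : 2 * (M : ℝ) * (N M : ℝ) < 0 := by linarith [h1.2, h3.2]
      have h9 : (N M : ℝ) < 0 := by
        by_contra h10
        push Not at h10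
        have := mul_nonneg hMpos.le h10
        linarith
      exact_mod_cast h9

end Pool.Agent.V11197.PP
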